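import Pool.Agent.H53.Signed.Defs
import Pool.Agent.H53.Signed.Main

/-!
The chromatic index of signed complete bipartite graphs `K_{r,r}`: for every `r ≥ 1` and every
signature, if `r` is odd, or `r` is even and the number of negative edges is even, then the signed
chromatic index is `r`.
-/

namespace Pool.Agent.Results.MP_b15362_co.SignedKrr

open Pool.Agent.H53.Signed

theorem result (r : ℕ) (hr : 0 < r)
    (σ : (completeBipartiteGraph (Fin r) (Fin r)).edgeSet → ℤˣ)
    (h : Odd r ∨ (Even r ∧ Even ({e | σ e = -1} : Set _).ncard)) :
    signedChromaticIndex (completeBipartiteGraph (Fin r) (Fin r)) σ = r :=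
  main r hr σ h

end Pool.Agent.Results.MP_b15362_co.SignedKrr
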